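import Pool.Agent.L7h17.OC.Stm

/-!
# Project OC, part CNT7: at most two big intervals for `m = 7`
-/

set_option autoImplicit false

namespace Pool.Agent.L7h77.OC

open Pool.Agent.L7h17.OC

/-- the cubic polynomial `R` with `(p (x ^ 2))'' = R (x ^ 2)` -/
noncomputable def RR (p : Polynomial ℝ) : Polynomial ℝ :=
  Polynomial.C 2 * p.derivative + Polynomial.C 4 * (Polynomial.X * p.derivative.derivative)

theorem dd_comp (p : Polynomial ℝ) (x : ℝ) :
    (p.comp (Polynomial.X ^ 2)).derivative.derivative.eval x = (RR p).eval (x ^ 2) := by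
  rw [Polynomial.derivative_comp, Polynomial.derivative_mul, Polynomial.derivative_comp]
  unfold RR
  simp only [Polynomial.eval_add, Polynomial.eval_mul, Polynomial.eval_C, Polynomial.eval_X,
    Polynomial.eval_comp, Polynomial.eval_pow, Polynomial.derivative_X_pow]
  simp
  ring

theorem RR_coeff (p : Polynomial ℝ) : (RR p).coeff 3 = 56 * p.coeff 4 := by
  unfold RR
  rw [Polynomial.coeff_add, Polynomial.coeff_C_mul, Polynomial.coeff_C_mul,
    Polynomial.coeff_X_mul, Polynomial.coeff_derivative, Polynomial.coeff_derivative,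
    Polynomial.coeff_derivative]
  push_cast
  ring

theorem RR_deg (p : Polynomial ℝ) (hp : p.natDegree ≤ 4) : (RR p).natDegree ≤ 3 := by
  have h1 : p.derivative.natDegree ≤ 3 := by
    have := Polynomial.natDegree_derivative_le p
    omega
  have h2 : p.derivative.derivative.natDegree ≤ 2 := by
    have := Polynomial.natDegree_derivative_le p.derivative
    omega
  unfold RR
  refine (Polynomial.natDegree_add_le _ _).trans (max_le ?_ ?_)
  · exact (Polynomial.natDegree_C_mul_le _ _).trans h1
  · refine (Polynomial.natDegree_C_mul_le _ _).trans ?_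
    refine (Polynomial.natDegree_mul_le).trans ?_
    have : (Polynomial.X : Polynomial ℝ).natDegree ≤ 1 := Polynomial.natDegree_X_le
    omega

/-- four positive zeros of the second derivative are too many -/
theorem four_zeros (p : Polynomial ℝ) (hp : p.natDegree ≤ 4) (hc : p.coeff 4 ≠ 0) (u : Fin 4 → ℝ)
    (hu : StrictMono u) (hu0 : 0 < u 0)
    (hz : ∀ i, (p.comp (Polynomial.X ^ 2)).derivative.derivative.eval (u i) = 0) : False := by
  have hR : RR p ≠ 0 := by
    intro h
    have h1 := RR_coeff p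
    rw [h, Polynomial.coeff_zero] at h1
    exact hc (by linarith)
  have hinj : Function.Injective fun i => u i ^ 2 := by
    intro i j hij
    have hpos : ∀ i, 0 ≤ u i := fun i => hu0.le.trans (hu.monotone (Fin.zero_le i))
    have h1 : u i ^ 2 = u j ^ 2 := hij
    exact hu.injective (by nlinarith [sq_nonneg (u i - u j), (pow_left_inj₀ (hpos i) (hpos j) two_ne_zero).1 h1])
  have hroot : Finset.univ.image (fun i => u i ^ 2) ⊆ (RR p).roots.toFinset := by
    intro y hy
    obtain ⟨i, _, rfl⟩ := Finset.mem_image.1 hy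
    rw [Multiset.mem_toFinset, Polynomial.mem_roots hR, Polynomial.IsRoot, ← dd_comp]
    exact hz i
  have h1 := Finset.card_le_card hroot
  rw [Finset.card_image_of_injective _ hinj, Finset.card_univ, Fintype.card_fin] at h1
  have h2 := Multiset.toFinset_card_le (RR p).roots
  have h3 := Polynomial.card_roots' (RR p)
  have h4 := RR_deg p hp
  omega

/-- the end points in their order -/
noncomputable def tt (a b : ℕ → ℝ) (i : ℕ) : ℝ := if i % 2 = 0 then a (i / 2) else b (i / 2)

/-- a group of end points with the same label -/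
theorem group (hGRP : S_GRP) (p : Polynomial ℝ) (r : ℝ) (t : ℕ → ℝ) (s n : ℕ)
    (hn : 2 ≤ n) (hmono : ∀ i, s ≤ i → i + 1 < s + n → t i < t (i + 1))
    (hpos : ∀ i, s ≤ i → i < s + n → 0 < t i)
    (hsq : ∀ i, s ≤ i → i < s + n → p.eval (t i) ^ 2 = r ^ 2 * t i) (hr : 0 < r)
    (hsame : ∀ i, s ≤ i → i + 1 < s + n → 0 < p.eval (t i) * p.eval (t (i + 1))) :
    ∃ y : ℕ → ℝ, (∀ i, i + 1 < n - 2 → y i < y (i + 1)) ∧
      ∀ i < n - 2, Real.sqrt (t s) < y i ∧ y i < Real.sqrt (t (s + n - 1)) ∧
        (p.comp (Polynomial.X ^ 2)).derivative.derivative.eval (y i) = 0 := by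
  -- the common sign
  have hall : ∀ k, k < n → 0 < p.eval (t s) * p.eval (t (s + k)) := by
    intro k
    induction k with
    | zero =>
      intro hk
      have h1 := hsame s le_rfl (by omega)
      have h2 : p.eval (t s) ≠ 0 := left_ne_zero_of_mul h1.ne'
      rw [add_zero, ← sq]
      positivity
    | succ k ih =>
      intro hk
      have h1 := ih (by omega)
      have h2 := hsame (s + k) (by omega) (by omega)
      rcases pos_and_pos_or_neg_and_neg_of_mul_pos h1 with ⟨h3, h4⟩ | ⟨h3, h4⟩
      · exact mul_pos h3 ((mul_pos_iff_of_pos_left h4).1 h2)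
      · exact mul_pos_of_neg_of_neg h3 (by
          by_contra h5
          push Not at h5
          have : p.eval (t (s + k)) * p.eval (t (s + k + 1)) ≤ 0 :=
            mul_nonpos_of_nonpos_of_nonneg h4.le h5
          linarith)
  obtain ⟨c, hc⟩ : ∃ c : ℝ, ∀ k, k < n → p.eval (t (s + k)) = c * Real.sqrt (t (s + k)) := by
    have hval : ∀ k, k < n → p.eval (t (s + k)) ^ 2 = (r * Real.sqrt (t (s + k))) ^ 2 := by
      intro k hk
      rw [hsq (s + k) (by omega) (by omega), mul_pow, Real.sq_sqrt (hpos _ (by omega) (by omega)).le]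
    rcases lt_or_ge 0 (p.eval (t s)) with h0 | h0
    · refine ⟨r, fun k hk => ?_⟩
      have h1 : 0 < p.eval (t (s + k)) := (mul_pos_iff_of_pos_left h0).1 (hall k hk)
      have h2 : 0 ≤ r * Real.sqrt (t (s + k)) := by positivity
      exact (pow_left_inj₀ h1.le h2 two_ne_zero).1 (hval k hk)
    · refine ⟨-r, fun k hk => ?_⟩
      have h1 : p.eval (t (s + k)) < 0 := by
        by_contra h5
        push Not at h5
        have h6 := hall k hk
        have : p.eval (t s) * p.eval (t (s + k)) ≤ 0 := mul_nonpos_of_nonpos_of_nonneg h0 h5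
        linarith
      have h2 : 0 ≤ r * Real.sqrt (t (s + k)) := by positivity
      have h3 : (-p.eval (t (s + k))) ^ 2 = (r * Real.sqrt (t (s + k))) ^ 2 := by
        rw [neg_sq]; exact hval k hk
      have h4 := (pow_left_inj₀ (by linarith) h2 two_ne_zero).1 h3
      linarith
  obtain ⟨y, hy1, hy2⟩ := hGRP (p.comp (Polynomial.X ^ 2)) 0 c n (fun k => Real.sqrt (t (s + k))) hn
    (fun i hi => Real.sqrt_lt_sqrt (hpos _ (by omega) (by omega)).le
      (hmono (s + i) (by omega) (by omega)))
    (fun i hi => by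
      rw [Polynomial.eval_comp, Polynomial.eval_pow, Polynomial.eval_X,
        Real.sq_sqrt (hpos _ (by omega) (by omega)).le, hc i hi, zero_add])
  refine ⟨y, hy1, fun i hi => ?_⟩
  obtain ⟨h1, h2, h3⟩ := hy2 i hi
  have e : s + (n - 1) = s + n - 1 := by omega
  refine ⟨h1, ?_, h3⟩
  have h4 : y i < Real.sqrt (t (s + (n - 1))) := h2
  rwa [e] at h4

/-- a nonvanishing polynomial keeps its sign -/
theorem sign_keep (p : Polynomial ℝ) (u v : ℝ) (huv : u ≤ v) (h : ∀ x, u ≤ x → x ≤ v → p.eval x ≠ 0) :
    0 < p.eval u * p.eval v := by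
  by_contra hcon
  push Not at hcon
  have hu := h u le_rfl huv
  have hv := h v huv le_rfl
  rcases lt_or_gt_of_ne hu with h1 | h1
  · have h2 : 0 ≤ p.eval v := by
      by_contra h3
      push Not at h3
      have := mul_pos_of_neg_of_neg h1 h3
      linarith
    obtain ⟨x, hx, hx0⟩ := intermediate_value_Icc huv (p.continuous.continuousOn) ⟨h1.le, h2⟩
    exact h x hx.1 hx.2 hx0
  · have h2 : p.eval v ≤ 0 := by
      by_contra h3
      push Not at h3
      have := mul_pos h1 h3
      linarith
    obtain ⟨x, hx, hx0⟩ := intermediate_value_Icc' huv (p.continuous.continuousOn) ⟨h2, h1.le⟩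
    exact h x hx.1 hx.2 hx0

theorem s_CNT7 (hGRP : S_GRP) : S_CNT7 := by
  intro p r q a b hdeg hc4 hp0 hr hq hband J hJ
  obtain ⟨⟨ha0, hab, hba⟩, hset, hDb, hDa, hgap⟩ := hband
  by_contra hcard
  push Not at hcard
  have hJq : ∀ j ∈ J, j < q := fun j hj => (hJ j hj).1
  have hq0 : 0 < q := by
    rcases Nat.eq_zero_or_pos q with h | h
    · exfalso
      have : J = ∅ := Finset.eq_empty_of_forall_notMem fun j hj => by
        have := hJq j hj
        omega
      rw [this] at hcard
      simp at hcard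
    · exact h
  have ha0' : 0 < a 0 := by
    rcases ha0.eq_or_lt with h | h
    · exfalso
      have h1 := (hset 0 le_rfl).2 ⟨0, hq0, h ▸ le_rfl, by
        have := hab 0 hq0
        linarith⟩
      have h2 : p.eval 0 ^ 2 > 0 := by positivity
      simp only [mul_zero, zero_sub] at h1
      linarith
    · exact h
  have hapos : ∀ j, j < q → 0 < a j := by
    intro j
    induction j with
    | zero => intro _; exact ha0'
    | succ j ih =>
      intro hj
      have h1 := ih (by omega)
      have h2 := hab j (by omega)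
      have h3 := hba j hj
      linarith
  have hbpos : ∀ j, j < q → 0 < b j := fun j hj => (hapos j hj).trans (hab j hj)
  have hsa : ∀ j, j < q → p.eval (a j) ^ 2 = r ^ 2 * a j := by
    intro j hj
    rcases hDa j hj with h | h
    · exact absurd h (hapos j hj).ne'
    · have h' : r ^ 2 * a j - p.eval (a j) ^ 2 = 0 := h
      linarith
  have hsb : ∀ j, j < q → p.eval (b j) ^ 2 = r ^ 2 * b j := by
    intro j hj
    have h' : r ^ 2 * b j - p.eval (b j) ^ 2 = 0 := hDb j hj
    linarith
  set t : ℕ → ℝ := tt a b with ht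
  have teven : ∀ j, t (2 * j) = a j := by
    intro j
    rw [ht]
    unfold tt
    rw [if_pos (by omega)]
    congr 1
    omega
  have todd : ∀ j, t (2 * j + 1) = b j := by
    intro j
    rw [ht]
    unfold tt
    rw [if_neg (by omega)]
    congr 1
    omega
  have par : ∀ i : ℕ, (∃ j, i = 2 * j) ∨ (∃ j, i = 2 * j + 1) := by
    intro i
    rcases Nat.even_or_odd' i with ⟨j, h | h⟩
    · exact Or.inl ⟨j, h⟩
    · exact Or.inr ⟨j, h⟩
  have hpos : ∀ i, i < 2 * q → 0 < t i := by
    intro i hi
    rcases par i with ⟨j, rfl⟩ | ⟨j, rfl⟩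
    · rw [teven]; exact hapos j (by omega)
    · rw [todd]; exact hbpos j (by omega)
  have hsq : ∀ i, i < 2 * q → p.eval (t i) ^ 2 = r ^ 2 * t i := by
    intro i hi
    rcases par i with ⟨j, rfl⟩ | ⟨j, rfl⟩
    · rw [teven]; exact hsa j (by omega)
    · rw [todd]; exact hsb j (by omega)
  have hmono : ∀ i, i + 1 < 2 * q → t i < t (i + 1) := by
    intro i hi
    rcases par i with ⟨j, rfl⟩ | ⟨j, rfl⟩
    · rw [teven, todd]; exact hab j (by omega)
    · have e : 2 * j + 1 + 1 = 2 * (j + 1) := by ring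
      rw [todd, e, teven]; exact hba j (by omega)
  have hne : ∀ i, i < 2 * q → p.eval (t i) ≠ 0 := by
    intro i hi h
    have h1 := hsq i hi
    rw [h] at h1
    have h2 := hpos i hi
    have : 0 < r ^ 2 * t i := by positivity
    norm_num at h1
    rcases h1 with h1 | h1 <;> linarith
  have hodd : ∀ j, j + 1 < q → 0 < p.eval (t (2 * j + 1)) * p.eval (t (2 * j + 2)) := by
    intro j hj
    have e : 2 * j + 2 = 2 * (j + 1) := by ring
    apply sign_keep
    · exact (hmono (2 * j + 1) (by omega)).le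
    · intro x hx1 hx2 hx0
      rw [todd] at hx1
      rw [e, teven] at hx2
      rcases hx1.eq_or_lt with h1 | h1
      · exact hne (2 * j + 1) (by omega) (by rw [todd, h1]; exact hx0)
      rcases hx2.eq_or_lt with h2 | h2
      · exact hne (2 * (j + 1)) (by omega) (by rw [teven, ← h2]; exact hx0)
      have h3 : r ^ 2 * x - p.eval x ^ 2 < 0 := hgap j hj x h1 h2
      rw [hx0] at h3
      have h4 : 0 < x := (hbpos j (by omega)).trans h1
      have : 0 < r ^ 2 * x := by positivity
      norm_num at h3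
      linarith
  have heven : ∀ j ∈ J, 0 < p.eval (t (2 * j)) * p.eval (t (2 * j + 1)) := by
    intro j hj
    rw [teven, todd]
    rcases (hJ j hj).2 with h | h
    · exact absurd h (hapos j (hJq j hj)).ne'
    · exact h
  have hpair : ∀ i, i + 1 < 2 * q → (i % 2 = 1 ∨ (i / 2) ∈ J) →
      0 < p.eval (t i) * p.eval (t (i + 1)) := by
    intro i hi h
    rcases par i with ⟨j, rfl⟩ | ⟨j, rfl⟩
    · have h1 : 2 * j / 2 = j := by omega
      rcases h with h | h
      · omega
      · rw [h1] at h
        exact heven j h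
    · exact hodd j (by omega)
  have HG := fun (s n : ℕ) (hn : 2 ≤ n) (hsn : s + n ≤ 2 * q)
      (hs : ∀ i, s ≤ i → i + 1 < s + n → (i % 2 = 1 ∨ (i / 2) ∈ J)) =>
    group hGRP p r t s n hn (fun i h1 h2 => hmono i (by omega)) (fun i h1 h2 => hpos i (by omega))
      (fun i h1 h2 => hsq i (by omega)) hr (fun i h1 h2 => hpair i (by omega) (hs i h1 h2))
  -- six points with one label
  have six : ∀ s, s + 6 ≤ 2 * q → (∀ i, s ≤ i → i + 1 < s + 6 → (i % 2 = 1 ∨ (i / 2) ∈ J)) →
      False := by
    intro s hs h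
    obtain ⟨y, hy1, hy2⟩ := HG s 6 (by norm_num) hs h
    refine four_zeros p hdeg hc4 (fun i => y i) ?_ ?_ (fun i => (hy2 i (by have := i.2; omega)).2.2)
    · rw [Fin.strictMono_iff_lt_succ]
      intro i
      exact hy1 i (by have := i.2; omega)
    · exact (Real.sqrt_nonneg _).trans_lt (hy2 0 (by norm_num)).1
  have hJ4 : J ∈ (Finset.range 4).powerset := by
    rw [Finset.mem_powerset]
    intro j hj
    rw [Finset.mem_range]
    have := hJq j hj
    omega
  have hcases : ∀ J ∈ (Finset.range 4).powerset, 2 < J.card →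
      (0 ∈ J ∧ 1 ∈ J ∧ 2 ∈ J) ∨ (1 ∈ J ∧ 2 ∈ J ∧ 3 ∈ J) ∨ (0 ∈ J ∧ 2 ∈ J ∧ 3 ∈ J) ∨
      (0 ∈ J ∧ 1 ∈ J ∧ 3 ∈ J) := by decide
  rcases hcases J hJ4 hcard with ⟨h0, h1, h2⟩ | ⟨h1, h2, h3⟩ | ⟨h0, h2, h3⟩ | ⟨h0, h1, h3⟩
  · have hq3 := hJq 2 h2
    refine six 0 (by omega) fun i hi1 hi2 => ?_
    have hi3 : i < 5 := by omega
    interval_cases i <;> simp [h0, h1, h2]
  · have hq3 := hJq 3 h3
    refine six 2 (by omega) fun i hi1 hi2 => ?_
    have hi3 : i < 7 := by omega
    interval_cases i <;> simp [h1, h2, h3]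
  · have hq3 := hJq 3 h3
    obtain ⟨y, hy1, hy2⟩ := HG 0 3 (by norm_num) (by omega) fun i hi1 hi2 => by
      have hi3 : i < 2 := by omega
      interval_cases i <;> simp [h0]
    obtain ⟨z, hz1, hz2⟩ := HG 3 5 (by norm_num) (by omega) fun i hi1 hi2 => by
      have hi3 : i < 7 := by omega
      interval_cases i <;> simp [h2, h3]
    have h23 : Real.sqrt (t 2) < Real.sqrt (t 3) :=
      Real.sqrt_lt_sqrt (hpos 2 (by omega)).le (hmono 2 (by omega))
    have g0 := hy2 0 (by norm_num)
    have g1 := hz2 0 (by norm_num)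
    have g2 := hz2 1 (by norm_num)
    have g3 := hz2 2 (by norm_num)
    refine four_zeros p hdeg hc4 ![y 0, z 0, z 1, z 2] ?_ ?_ ?_
    · rw [Fin.strictMono_iff_lt_succ]
      intro i
      fin_cases i
      · exact (g0.2.1.trans h23).trans g1.1
      · exact hz1 0 (by norm_num)
      · exact hz1 1 (by norm_num)
    · exact (Real.sqrt_nonneg _).trans_lt g0.1
    · intro i
      fin_cases i
      · exact g0.2.2
      · exact g1.2.2
      · exact g2.2.2
      · exact g3.2.2
  · have hq3 := hJq 3 h3
    obtain ⟨z, hz1, hz2⟩ := HG 0 5 (by norm_num) (by omega) fun i hi1 hi2 => by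
      have hi3 : i < 4 := by omega
      interval_cases i <;> simp [h0, h1]
    obtain ⟨y, hy1, hy2⟩ := HG 5 3 (by norm_num) (by omega) fun i hi1 hi2 => by
      have hi3 : i < 7 := by omega
      interval_cases i <;> simp [h3]
    have h45 : Real.sqrt (t 4) < Real.sqrt (t 5) :=
      Real.sqrt_lt_sqrt (hpos 4 (by omega)).le (hmono 4 (by omega))
    have g0 := hy2 0 (by norm_num)
    have g1 := hz2 0 (by norm_num)
    have g2 := hz2 1 (by norm_num)
    have g3 := hz2 2 (by norm_num)
    refine four_zeros p hdeg hc4 ![z 0, z 1, z 2, y 0] ?_ ?_ ?_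
    · rw [Fin.strictMono_iff_lt_succ]
      intro i
      fin_cases i
      · exact hz1 0 (by norm_num)
      · exact hz1 1 (by norm_num)
      · exact (g3.2.1.trans h45).trans g0.1
    · exact (Real.sqrt_nonneg _).trans_lt g1.1
    · intro i
      fin_cases i
      · exact g1.2.2
      · exact g2.2.2
      · exact g3.2.2
      · exact g0.2.2

end Pool.Agent.L7h77.OC
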