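import Pool.Agent.L7h17.OC.Stm

/-!
# Project OC, part GRP: Rolle twice
-/

set_option autoImplicit false

namespace Pool.Agent.L7h77.OC

open Pool.Agent.L7h17.OC

theorem rolle (H : Polynomial ℝ) (a b : ℝ) (hab : a < b) (h : H.eval a = H.eval b) :
    ∃ c, a < c ∧ c < b ∧ H.derivative.eval c = 0 := by
  obtain ⟨c, hc, hc2⟩ := exists_deriv_eq_zero (f := fun x => H.eval x) hab
    H.continuous.continuousOn h
  refine ⟨c, hc.1, hc.2, ?_⟩
  rwa [Polynomial.deriv] at hc2

theorem chain_le (n : ℕ) (x : ℕ → ℝ) (hx : ∀ i, i + 1 < n → x i < x (i + 1)) :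
    ∀ j i, i ≤ j → j < n → x i ≤ x j := by
  intro j
  induction j with
  | zero =>
    intro i hi _
    have : i = 0 := by omega
    rw [this]
  | succ j ih =>
    intro i hi hj
    rcases Nat.lt_or_ge j i with h | h
    · have : i = j + 1 := by omega
      rw [this]
    · exact (ih i h (by omega)).trans (hx j hj).le

theorem s_GRP : S_GRP := by
  intro G l₀ l₁ n x hn hx hG
  set H : Polynomial ℝ := G - (Polynomial.C l₀ + Polynomial.C l₁ * Polynomial.X) with hH
  have hH0 : ∀ i, i < n → H.eval (x i) = 0 := by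
    intro i hi
    rw [hH, Polynomial.eval_sub, hG i hi]
    simp
  have hz : ∀ i, ∃ c, i + 1 < n → x i < c ∧ c < x (i + 1) ∧ H.derivative.eval c = 0 := by
    intro i
    by_cases hi : i + 1 < n
    · obtain ⟨c, h1, h2, h3⟩ := rolle H (x i) (x (i + 1)) (hx i hi)
        ((hH0 i (by omega)).trans (hH0 (i + 1) hi).symm)
      exact ⟨c, fun _ => ⟨h1, h2, h3⟩⟩
    · exact ⟨0, fun h => absurd h hi⟩
  choose z hz using hz
  have hy : ∀ i, ∃ c, i + 2 < n → z i < c ∧ c < z (i + 1) ∧ H.derivative.derivative.eval c = 0 := by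
    intro i
    by_cases hi : i + 2 < n
    · have h1 := hz i (by omega)
      have h2 := hz (i + 1) (by omega)
      obtain ⟨c, h3, h4, h5⟩ := rolle H.derivative (z i) (z (i + 1)) (h1.2.1.trans h2.1)
        (h1.2.2.trans h2.2.2.symm)
      exact ⟨c, fun _ => ⟨h3, h4, h5⟩⟩
    · exact ⟨0, fun h => absurd h hi⟩
  choose y hy using hy
  have hd : H.derivative.derivative = G.derivative.derivative := by
    rw [hH]
    simp
  refine ⟨y, ?_, ?_⟩
  · intro i hi
    have h1 := hy i (by omega)
    have h2 := hy (i + 1) (by omega)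
    exact h1.2.1.trans h2.1
  · intro i hi
    have h1 := hy i (by omega)
    have h2 := hz i (by omega)
    have h3 := hz (i + 1) (by omega)
    have h4 := chain_le n x hx i 0 (Nat.zero_le _) (by omega)
    have h5 := chain_le n x hx (n - 1) (i + 2) (by omega) (by omega)
    refine ⟨?_, ?_, ?_⟩
    · linarith [h1.1, h2.1]
    · have h6 : z (i + 1) < x (i + 2) := h3.2.1
      linarith [h1.2.1]
    · rw [← hd]; exact h1.2.2

end Pool.Agent.L7h77.OC
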