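import Pool.Agent.L7h17.OC.Stm

/-!
# Project OC, part TRANS: linear changes of coordinates
-/

set_option autoImplicit false

open MvPolynomial

namespace Pool.Agent.L7h77.OC

open Pool.Agent.L7h17.OC

theorem pderiv_bind (f : Fin 3 → MvPolynomial (Fin 3) ℝ) (F : MvPolynomial (Fin 3) ℝ) (j : Fin 3) :
    pderiv j (bind₁ f F) = ∑ i, bind₁ f (pderiv i F) * pderiv j (f i) := by
  induction F using MvPolynomial.induction_on with
  | C a => simp
  | add p q hp hq =>
    rw [map_add, map_add, hp, hq, ← Finset.sum_add_distrib]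
    refine Finset.sum_congr rfl fun i _ => ?_
    rw [map_add, map_add, add_mul]
  | mul_X p n hp =>
    rw [map_mul, bind₁_X_right, Derivation.leibniz, hp]
    have h1 : ∀ i, bind₁ f (pderiv i (p * X n)) * pderiv j (f i) =
        f n * (bind₁ f (pderiv i p) * pderiv j (f i)) +
          (if i = n then bind₁ f p * pderiv j (f i) else 0) := by
      intro i
      rw [Derivation.leibniz, smul_eq_mul, smul_eq_mul, map_add, map_mul, map_mul, bind₁_X_right,
        pderiv_X]
      by_cases h : i = n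
      · subst h
        simp
        ring
      · rw [if_neg h]
        have h2 : (Pi.single i (1 : MvPolynomial (Fin 3) ℝ) : Fin 3 → MvPolynomial (Fin 3) ℝ) n = 0 := by
          rw [Pi.single_apply, if_neg (fun h' => h h'.symm)]
        rw [h2]
        simp
        ring
    rw [Finset.sum_congr rfl fun i _ => h1 i, Finset.sum_add_distrib, ← Finset.mul_sum,
      Finset.sum_ite_eq' Finset.univ n, if_pos (Finset.mem_univ _), smul_eq_mul, smul_eq_mul]
    ring

theorem lin_hom (M : Matrix (Fin 3) (Fin 3) ℝ) (i : Fin 3) :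
    (∑ j, C (M i j) * X j : MvPolynomial (Fin 3) ℝ).IsHomogeneous 1 := by
  apply IsHomogeneous.sum
  intro j _
  have h := (isHomogeneous_C (Fin 3) (M i j)).mul (isHomogeneous_X ℝ j)
  simpa using h

theorem pderiv_lin (M : Matrix (Fin 3) (Fin 3) ℝ) (i j : Fin 3) :
    pderiv j (∑ l, C (M i l) * X l : MvPolynomial (Fin 3) ℝ) = C (M i j) := by
  rw [map_sum, Finset.sum_eq_single j]
  · rw [Derivation.leibniz, pderiv_X_self, pderiv_C]
    simp
  · intro l _ hl
    rw [Derivation.leibniz, pderiv_X_of_ne hl, pderiv_C]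
    simp
  · intro h; exact absurd (Finset.mem_univ _) h

theorem eval_change (F : MvPolynomial (Fin 3) ℝ) (M : Matrix (Fin 3) (Fin 3) ℝ) (v : Fin 3 → ℝ) :
    eval v (change M F) = eval (M.mulVec v) F := by
  unfold change
  have h : eval v (bind₁ (fun i => ∑ j, C (M i j) * X j) F) =
      eval (fun i => eval v (∑ j, C (M i j) * X j)) F := eval₂Hom_bind₁ (RingHom.id ℝ) v _ F
  rw [h]
  congr 2
  funext i
  simp [Matrix.mulVec, dotProduct]

/-- the complexification of `M` -/
noncomputable def cM (M : Matrix (Fin 3) (Fin 3) ℝ) : Matrix (Fin 3) (Fin 3) ℂ :=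
  M.map (algebraMap ℝ ℂ)

theorem aeval_change (F : MvPolynomial (Fin 3) ℝ) (M : Matrix (Fin 3) (Fin 3) ℝ) (v : Fin 3 → ℂ) :
    aeval v (bind₁ (fun i => ∑ j, C (M i j) * X j) F) = aeval ((cM M).mulVec v) F := by
  rw [aeval_bind₁]
  congr 2
  funext i
  simp [Matrix.mulVec, dotProduct, cM]

theorem s_TRANS : S_TRANS := by
  intro F M hM
  obtain ⟨u, rfl⟩ := hM
  set M : Matrix (Fin 3) (Fin 3) ℝ := (u : Matrix (Fin 3) (Fin 3) ℝ) with hMdef
  set N : Matrix (Fin 3) (Fin 3) ℝ := ((u⁻¹ : (Matrix (Fin 3) (Fin 3) ℝ)ˣ) : Matrix (Fin 3) (Fin 3) ℝ)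
    with hNdef
  have hMN : M * N = 1 := u.mul_inv
  have hNM : N * M = 1 := u.inv_mul
  have hcMN : cM M * cM N = 1 := by
    unfold cM
    rw [← Matrix.map_mul, hMN]
    simp
  have hcNM : cM N * cM M = 1 := by
    unfold cM
    rw [← Matrix.map_mul, hNM]
    simp
  refine ⟨?_, eval_change F M, ?_, ?_⟩
  · intro h
    have := h.aeval (fun i => ∑ j, C (M i j) * X j) (fun i => lin_hom M i)
    unfold change
    simpa using this
  · intro h v hv hcon
    obtain ⟨h1, h2⟩ := hcon
    have hw : (cM M).mulVec v ≠ 0 := by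
      intro h0
      apply hv
      have h3 : (cM N).mulVec ((cM M).mulVec v) = 0 := by rw [h0, Matrix.mulVec_zero]
      rwa [Matrix.mulVec_mulVec, hcNM, Matrix.one_mulVec] at h3
    apply h _ hw
    unfold change at h1 h2
    rw [aeval_change] at h1
    refine ⟨h1, ?_⟩
    set g : Fin 3 → ℂ := fun i => aeval ((cM M).mulVec v) (pderiv i F) with hg
    have h3 : Matrix.vecMul g (cM M) = 0 := by
      funext j
      have h4 := h2 j
      rw [pderiv_bind, map_sum] at h4
      show ∑ i, g i * (cM M) i j = 0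
      rw [← h4]
      refine Finset.sum_congr rfl fun i _ => ?_
      rw [map_mul, aeval_change, pderiv_lin]
      simp [cM, hg]
    have h5 : g = 0 := by
      have h6 : Matrix.vecMul (Matrix.vecMul g (cM M)) (cM N) = 0 := by
        rw [h3, Matrix.zero_vecMul]
      rwa [Matrix.vecMul_vecMul, hcMN, Matrix.vecMul_one] at h6
    exact fun i => congrFun h5 i
  · rintro k ⟨C, h1, h2, h3, h4, h5⟩
    have hne : ∀ v : Fin 3 → ℝ, v ≠ 0 ↔ M.mulVec v ≠ 0 := by
      intro v
      constructor
      · intro hv h0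
        apply hv
        have h6 : N.mulVec (M.mulVec v) = 0 := by rw [h0, Matrix.mulVec_zero]
        rwa [Matrix.mulVec_mulVec, hNM, Matrix.one_mulVec] at h6
      · intro hv h0
        apply hv
        rw [h0, Matrix.mulVec_zero]
    refine ⟨fun i => {v | M.mulVec v ∈ C i}, ?_, ?_, ?_, ?_, ?_⟩
    · intro i
      obtain ⟨w, hw⟩ := h1 i
      refine ⟨N.mulVec w, ?_⟩
      show M.mulVec (N.mulVec w) ∈ C i
      rw [Matrix.mulVec_mulVec, hMN, Matrix.one_mulVec]
      exact hw
    · intro i j hij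
      rw [Set.disjoint_left]
      intro v hv hv2
      exact Set.disjoint_left.1 (h2 i j hij) hv hv2
    · ext v
      rw [Set.mem_iUnion]
      have h6 : (∃ i, M.mulVec v ∈ C i) ↔ M.mulVec v ∈ realCone F := by
        rw [← h3, Set.mem_iUnion]
      refine h6.trans ?_
      unfold realCone
      show (M.mulVec v ≠ 0 ∧ eval (M.mulVec v) F = 0) ↔ (v ≠ 0 ∧ eval v (change M F) = 0)
      rw [eval_change, hne v]
    · intro i v hv c hc
      show M.mulVec (c • v) ∈ C i
      rw [Matrix.mulVec_smul]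
      exact h4 i _ hv c hc
    · intro i
      obtain ⟨K, hK, hKC⟩ := h5 i
      refine ⟨(fun v => M.mulVec v) ⁻¹' K, hK.preimage ?_, ?_⟩
      · exact Continuous.matrix_mulVec continuous_const continuous_id
      · ext v
        show M.mulVec v ∈ C i ↔ M.mulVec v ∈ K ∧ v ≠ 0
        rw [hKC, hne v]
        rfl

end Pool.Agent.L7h77.OC
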